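import Mathlib

open Set Polynomial

namespace Pool.Agent.Results.MP_664f87_an.NotCZDS

/-- number of non-real zeros, with multiplicity -/
noncomputable def Zc (f : ℝ[X]) : ℕ :=
  ((f.map (algebraMap ℝ ℂ)).roots.filter fun z => z.im ≠ 0).card

/-- action of a real sequence on polynomials -/
noncomputable def act (γ : ℕ → ℝ) (f : ℝ[X]) : ℝ[X] := f.sum fun k a => monomial k (γ k * a)

lemma coeff_act (γ : ℕ → ℝ) (f : ℝ[X]) (k : ℕ) : (act γ f).coeff k = γ k * f.coeff k := by
  simp only [act, Polynomial.sum, finsetSum_coeff, coeff_monomial]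
  rw [Finset.sum_ite_eq']
  split_ifs with h
  · rfl
  · rw [notMem_support_iff.1 h, mul_zero]

def dl : List ℤ := [275, -6974, 109617, -1211564, 10111958, -66716061, 359180536, -1614803289,
  6169086341, -20298847461, 58141021681, -146194984830, 324919679100, -641791104504,
  1131610119210, -1787327710365, 2535699528225, -3237897844335, 3726642148845, -3869275178340,
  3625170695370, -3064137883980, 2334660203400, -1601318828295, 986738696355, -544785458715,
  268552753679, -117675744062, 45579909584, -15496900188, 4584140066, -1166553566, 251652804,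
  -45125491, 6545346, -737876, 60660, -3235, 84]

def c (i : ℕ) : ℚ := (dl.getD i 0 : ℚ) / (i.factorial : ℚ)

def mu (k : ℕ) : ℚ := (k.factorial : ℚ) / (1 + k + k ^ 2)

def SS : ℚ := ∑ i ∈ Finset.range 39, ∑ j ∈ Finset.range 39, mu (i + j) * (c i * c j)

lemma SS_neg : SS + 1 < 0 := by decide +kernel

noncomputable def q : ℝ[X] := ∑ i ∈ Finset.range 39, monomial i (c i : ℝ)

noncomputable def f0 : ℝ[X] :=
  ∑ i ∈ Finset.range 39, ∑ j ∈ Finset.range 39,
    monomial (i + j) ((mu (i + j) : ℝ) * (c i * c j)) + 1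

lemma coeff_f0 (k : ℕ) : f0.coeff k = (mu k : ℝ) * (q * q + 1).coeff k := by
  rw [q, Finset.sum_mul_sum]
  simp only [monomial_mul_monomial]
  simp only [f0, coeff_add, finsetSum_coeff, coeff_monomial, mul_add, Finset.mul_sum, coeff_one]
  congr 1
  · refine Finset.sum_congr rfl fun i _ => Finset.sum_congr rfl fun j _ => ?_
    split_ifs with h
    · rw [h]
    · simp
  · split_ifs with h
    · simp [h, mu]
    · simp

theorem result : ∃ f : ℝ[X],
    Zc f < Zc (act (fun k => (1 + (k : ℝ) + (k : ℝ) ^ 2) / (k.factorial : ℝ)) f) := by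
  have hpos : ∀ x : ℝ, 0 < (q * q + 1).eval x := fun x => by
    simp only [eval_add, eval_mul, eval_one]
    nlinarith [mul_self_nonneg (q.eval x)]
  have hact : act (fun k => (1 + (k : ℝ) + (k : ℝ) ^ 2) / (k.factorial : ℝ)) f0 = q * q + 1 := by
    ext k
    rw [coeff_act, coeff_f0, ← mul_assoc]
    have h1 : (0 : ℝ) < 1 + (k : ℝ) + (k : ℝ) ^ 2 := by positivity
    have h2 : (0 : ℝ) < k.factorial := by positivity
    have : (1 + (k : ℝ) + (k : ℝ) ^ 2) / (k.factorial : ℝ) * (mu k : ℝ) = 1 := by
      simp only [mu]; push_cast; field_simp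
    rw [this, one_mul]
  refine ⟨f0, ?_⟩
  rw [hact]
  have hZ : Zc (q * q + 1) = (q * q + 1).natDegree := by
    unfold Zc
    rw [Multiset.filter_eq_self.2, IsAlgClosed.card_roots_eq_natDegree, natDegree_map]
    intro z hz him
    have h1 := (mem_roots'.1 hz).2
    have h2 : z = algebraMap ℝ ℂ z.re := by apply Complex.ext <;> simp [him]
    rw [h2, IsRoot.def, eval_map_algebraMap, aeval_algebraMap_apply, map_eq_zero, coe_aeval_eq_eval] at h1
    exact (hpos _).ne' h1
  have hdeg : f0.natDegree ≤ (q * q + 1).natDegree := by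
    rw [natDegree_le_iff_coeff_eq_zero]
    intro k hk
    rw [coeff_f0, coeff_eq_zero_of_natDegree_lt hk, mul_zero]
  have h0 : 0 < f0.eval 0 := by
    rw [← coeff_zero_eq_eval_zero, coeff_f0, coeff_zero_eq_eval_zero]
    have : (mu 0 : ℝ) = 1 := by simp [mu]
    rw [this, one_mul]
    exact hpos 0
  have h1 : f0.eval 1 < 0 := by
    have : f0.eval 1 = ((SS + 1 : ℚ) : ℝ) := by
      simp only [f0, SS, eval_add, eval_finsetSum, eval_monomial, one_pow, mul_one, eval_one]
      push_cast
      rfl
    rw [this]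
    exact_mod_cast SS_neg
  obtain ⟨x, -, hx⟩ := intermediate_value_Icc' (zero_le_one' ℝ) f0.continuous.continuousOn
    (show (0 : ℝ) ∈ Icc (f0.eval 1) (f0.eval 0) from ⟨h1.le, h0.le⟩)
  have hne : f0 ≠ 0 := fun h => by rw [h] at h0; simp at h0
  have hroot : algebraMap ℝ ℂ x ∈ (f0.map (algebraMap ℝ ℂ)).roots := by
    rw [mem_roots (Polynomial.map_ne_zero hne), IsRoot.def, eval_map_algebraMap,
      aeval_algebraMap_apply, map_eq_zero, coe_aeval_eq_eval]
    exact hx
  rw [hZ]
  refine lt_of_lt_of_le ?_ hdeg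
  rw [← natDegree_map (algebraMap ℝ ℂ), ← IsAlgClosed.card_roots_eq_natDegree]
  apply Multiset.card_lt_card
  refine lt_of_le_of_ne (Multiset.filter_le _ _) fun h => ?_
  exact Multiset.filter_eq_self.1 h _ hroot (by simp)

end Pool.Agent.Results.MP_664f87_an.NotCZDS
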